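import Pool.Agent.helper25.EN.Spec

/-!
# Project EN, row ACP: basic facts on the weights of cells
-/

set_option autoImplicit false

namespace EN

open Finset Real

private theorem ACP_congr {m : ℕ} (Q : Om m → ℝ) (C : Finset (Fin m)) (x y : Om m) (h : ∀ u ∈ C, y u = x u) :
    w Q C y = w Q C x := by
  unfold w
  apply Finset.sum_congr _ fun _ _ => rfl
  ext z
  rw [mem_filter, mem_filter]
  exact ⟨fun g => ⟨g.1, fun u hu => (g.2 u hu).trans (h u hu)⟩, fun g => ⟨g.1, fun u hu => (g.2 u hu).trans (h u hu).symm⟩⟩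

private theorem ACP_fl {m : ℕ} (v u : Fin m) (x : Om m) (h : u ≠ v) : fl v x u = x u := by
  unfold fl
  exact Function.update_of_ne h _ _

private theorem ACP_flv {m : ℕ} (v : Fin m) (x : Om m) : fl v x v = !x v := by
  unfold fl
  exact Function.update_self _ _ _

private theorem ACP_mono {m : ℕ} (Q : Om m → ℝ) (hQ : ∀ x, 0 ≤ Q x) (C C' : Finset (Fin m)) (x : Om m) (h : C ⊆ C') :
    w Q C' x ≤ w Q C x := by
  unfold w
  apply Finset.sum_le_sum_of_subset_of_nonneg
  · intro y hy
    rw [mem_filter] at hy ⊢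
    exact ⟨hy.1, fun u hu => hy.2 u (h hu)⟩
  · intro y _ _
    exact hQ y

private theorem ACP_self {m : ℕ} (Q : Om m → ℝ) (hQ : ∀ x, 0 ≤ Q x) (C : Finset (Fin m)) (x : Om m) : Q x ≤ w Q C x := by
  unfold w
  exact Finset.single_le_sum (fun y _ => hQ y) (mem_filter.2 ⟨mem_univ x, fun _ _ => rfl⟩)

private theorem ACP_split {m : ℕ} (Q : Om m → ℝ) (C : Finset (Fin m)) (v : Fin m) (x : Om m) (hv : v ∉ C) :
    w Q C x = w Q (insert v C) x + w Q (insert v C) (fl v x) := by
  unfold w
  rw [Finset.sum_filter, Finset.sum_filter, Finset.sum_filter, ← Finset.sum_add_distrib]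
  apply Finset.sum_congr rfl
  intro y _
  have hfl : ∀ u ∈ C, fl v x u = x u := fun u hu => ACP_fl v u x (fun h => hv (h ▸ hu))
  by_cases hC : ∀ u ∈ C, y u = x u
  · rw [if_pos hC]
    by_cases hyv : y v = x v
    · rw [if_pos, if_neg, add_zero]
      · intro h
        have h1 := h v (mem_insert_self v C)
        rw [ACP_flv, hyv] at h1
        cases hx : x v <;> rw [hx] at h1 <;> exact absurd h1 (by decide)
      · intro u hu
        rcases mem_insert.1 hu with h | h
        · rw [h]; exact hyv
        · exact hC u h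
    · rw [if_neg, if_pos, zero_add]
      · intro u hu
        rcases mem_insert.1 hu with h | h
        · rw [h, ACP_flv]
          cases hx : x v <;> cases hy : y v <;> rw [hx, hy] at hyv
          · exact absurd rfl hyv
          · rfl
          · rfl
          · exact absurd rfl hyv
        · rw [hfl u h]; exact hC u h
      · intro h
        exact hyv (h v (mem_insert_self v C))
  · rw [if_neg hC, if_neg, if_neg, add_zero]
    · intro h
      exact hC fun u hu => (h u (mem_insert_of_mem hu)).trans (hfl u hu)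
    · intro h
      exact hC fun u hu => h u (mem_insert_of_mem hu)

theorem ACP : ACP_stmt := by
  intro m Q hQ C v x
  obtain ⟨hQ0, hQ1⟩ := hQ
  have hw0 : ∀ (B : Finset (Fin m)) (y : Om m), 0 ≤ w Q B y := by
    intro B y
    unfold w
    exact Finset.sum_nonneg fun z _ => hQ0 z
  refine ⟨fun y hy => ACP_congr Q C x y hy, ACP_self Q hQ0 C x, ?_, ?_, ?_, fun C' h => ACP_mono Q hQ0 C C' x h, ?_⟩
  · rw [← hQ1]
    unfold w
    exact Finset.sum_le_sum_of_subset_of_nonneg (filter_subset _ _) fun y _ _ => hQ0 y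
  · rw [← hQ1]
    unfold w
    apply Finset.sum_congr _ fun _ _ => rfl
    exact filter_true_of_mem fun y _ u hu => absurd hu (notMem_empty u)
  · unfold w
    have : (univ.filter fun y : Om m => ∀ u ∈ (univ : Finset (Fin m)), y u = x u) = {x} := by
      ext y
      rw [mem_filter, mem_singleton]
      exact ⟨fun h => funext fun u => h.2 u (mem_univ u), fun h => ⟨mem_univ y, fun u _ => by rw [h]⟩⟩
    rw [this, Finset.sum_singleton]
  · intro hv
    refine ⟨fun y hy => ?_, ?_, ?_, fun hx => ?_⟩
    · unfold a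
      rw [ACP_congr Q (insert v C) x y hy, ACP_congr Q C x y fun u hu => hy u (mem_insert_of_mem hu)]
    · unfold a
      exact div_nonneg (hw0 _ _) (hw0 _ _)
    · unfold a
      exact div_le_one_of_le₀ (ACP_mono Q hQ0 C (insert v C) x (subset_insert v C)) (hw0 _ _)
    · have h1 : 0 < w Q C x := lt_of_lt_of_le hx (ACP_self Q hQ0 C x)
      have h2 : 0 < w Q (insert v C) x := lt_of_lt_of_le hx (ACP_self Q hQ0 (insert v C) x)
      refine ⟨?_, ?_⟩
      · unfold a
        exact div_pos h2 h1
      · unfold a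
        rw [ACP_congr Q C x (fl v x) fun u hu => ACP_fl v u x (fun h => hv (h ▸ hu)), eq_sub_iff_add_eq, ← add_div,
          add_comm, ← ACP_split Q C v x hv, div_self h1.ne']

end EN
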