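import Pool.Agent.helper25.EN.Spec

/-!
# Project EN, row MAI (second prover)
-/

set_option autoImplicit false

namespace EN

open Finset Real

private theorem MAI_adp {m : ℕ} (S : ℕ → Om m → Finset (Fin m)) (hS : Rounds S) (j : ℕ) : Adp (S j) := by
  intro x y h
  cases j with
  | zero => rw [hS.1 x, hS.1 y]
  | succ i => exact (hS.2 i x).2 y fun u hu => h u ((hS.2 i x).1 hu)

private theorem MAI_pa {m : ℕ} (v : Fin m) : v ∉ pa v := by
  unfold pa
  rw [mem_filter]
  exact fun h => lt_irrefl v h.2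

/-- the inequality for one coin -/
private theorem MAI_one (acp : ACP_stmt) (inq : INQ_stmt) {m : ℕ} (Q : Om m → ℝ) (hQ : Law Q) (B : Finset (Fin m))
    (v : Fin m) (x : Om m) (hx : 0 < Q x) (hv : v ∉ B) :
    0 ≤ kl (a Q (B ∪ pa v) v x) (a Q (pa v) v x) ∧ 0 ≤ phi (a Q (pa v) v x) ∧
      phi (a Q (B ∪ pa v) v x) ≤ 16 * phi (a Q (pa v) v x) + 16 * kl (a Q (B ∪ pa v) v x) (a Q (pa v) v x) := by
  have hvB : v ∉ B ∪ pa v := by
    rw [mem_union]
    rintro (h | h)
    · exact hv h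
    · exact MAI_pa v h
  obtain ⟨-, -, -, -, -, -, s7⟩ := acp m Q hQ (B ∪ pa v) v x
  obtain ⟨-, -, -, -, -, -, t7⟩ := acp m Q hQ (pa v) v x
  obtain ⟨-, s0, s1, s2⟩ := s7 hvB
  obtain ⟨-, t0, t1, t2⟩ := t7 (MAI_pa v)
  obtain ⟨sp, sf⟩ := s2 hx
  obtain ⟨tp, tf⟩ := t2 hx
  have key : a Q (pa v) v x = 1 → a Q (B ∪ pa v) v x = 1 := by
    intro h
    rw [h, sub_self] at tf
    -- the weight of the other half is zero
    obtain ⟨-, -, -, -, -, m6, -⟩ := acp m Q hQ (insert v (pa v)) v (fl v x)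
    have h1 : w Q (insert v (pa v)) (fl v x) = 0 := by
      unfold a at tf
      rcases div_eq_zero_iff.1 tf with h2 | h2
      · exact h2
      · obtain ⟨-, -, -, -, -, m6', -⟩ := acp m Q hQ (pa v) v (fl v x)
        have h3 := m6' (insert v (pa v)) (subset_insert v (pa v))
        rw [h2] at h3
        have h4 : 0 ≤ w Q (insert v (pa v)) (fl v x) := by
          unfold w
          exact Finset.sum_nonneg fun z _ => hQ.1 z
        linarith
    have h5 := m6 (insert v (B ∪ pa v)) (insert_subset_insert v subset_union_right)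
    have h6 : 0 ≤ w Q (insert v (B ∪ pa v)) (fl v x) := by
      unfold w
      exact Finset.sum_nonneg fun z _ => hQ.1 z
    have h7 : w Q (insert v (B ∪ pa v)) (fl v x) = 0 := by linarith
    have h8 : a Q (B ∪ pa v) v (fl v x) = 0 := by
      unfold a
      rw [h7, zero_div]
    rw [h8] at sf
    linarith
  obtain ⟨i1, i2, -, i4⟩ := inq (a Q (B ∪ pa v) v x) (a Q (pa v) v x) s0 s1 t0 t1 (fun h => absurd h tp.ne') key
  exact ⟨i1, i2, i4⟩

private theorem MAI_G (acp : ACP_stmt) (inq : INQ_stmt) {m : ℕ} (Q : Om m → ℝ) (hQ : Law Q)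
    (S : ℕ → Om m → Finset (Fin m)) (hS : Rounds S) (j : ℕ) :
    G Q S j ≤ 16 * (X Q (S (j + 1)) - X Q (S j)) + 16 * D Q S j ∧ X Q (S j) ≤ X Q (S (j + 1)) := by
  have hpt : ∀ x, Q x * ∑ v ∈ S (j + 1) x \ S j x, phi (a Q (S j x ∪ pa v) v x) ≤
      16 * (Q x * ∑ v ∈ S (j + 1) x, phi (a Q (pa v) v x) - Q x * ∑ v ∈ S j x, phi (a Q (pa v) v x)) +
        16 * (Q x * ∑ v ∈ univ \ S j x, kl (a Q (S j x ∪ pa v) v x) (a Q (pa v) v x)) ∧
      Q x * ∑ v ∈ S j x, phi (a Q (pa v) v x) ≤ Q x * ∑ v ∈ S (j + 1) x, phi (a Q (pa v) v x) := by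
    intro x
    rcases (hQ.1 x).lt_or_eq with hx | hx
    · have hsub := (hS.2 j x).1
      have e1 : ∑ v ∈ S (j + 1) x, phi (a Q (pa v) v x) =
          ∑ v ∈ S (j + 1) x \ S j x, phi (a Q (pa v) v x) + ∑ v ∈ S j x, phi (a Q (pa v) v x) :=
        (Finset.sum_sdiff hsub).symm
      have e2 : ∑ v ∈ S (j + 1) x \ S j x, phi (a Q (S j x ∪ pa v) v x) ≤
          16 * ∑ v ∈ S (j + 1) x \ S j x, phi (a Q (pa v) v x) +
            16 * ∑ v ∈ S (j + 1) x \ S j x, kl (a Q (S j x ∪ pa v) v x) (a Q (pa v) v x) := by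
        rw [Finset.mul_sum, Finset.mul_sum, ← Finset.sum_add_distrib]
        apply Finset.sum_le_sum
        intro v hv
        exact (MAI_one acp inq Q hQ (S j x) v x hx (mem_sdiff.1 hv).2).2.2
      have e3 : ∑ v ∈ S (j + 1) x \ S j x, kl (a Q (S j x ∪ pa v) v x) (a Q (pa v) v x) ≤
          ∑ v ∈ univ \ S j x, kl (a Q (S j x ∪ pa v) v x) (a Q (pa v) v x) := by
        apply Finset.sum_le_sum_of_subset_of_nonneg
        · exact sdiff_subset_sdiff (subset_univ _) (subset_refl _)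
        · intro v hv _
          exact (MAI_one acp inq Q hQ (S j x) v x hx (mem_sdiff.1 hv).2).1
      have e4 : 0 ≤ ∑ v ∈ S (j + 1) x \ S j x, phi (a Q (pa v) v x) :=
        Finset.sum_nonneg fun v hv => (MAI_one acp inq Q hQ (S j x) v x hx (mem_sdiff.1 hv).2).2.1
      constructor
      · rw [e1]
        have h1 := mul_le_mul_of_nonneg_left e2 hx.le
        have h2 := mul_le_mul_of_nonneg_left e3 hx.le
        nlinarith
      · rw [e1]
        nlinarith [mul_nonneg hx.le e4]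
    · rw [← hx]
      simp
  constructor
  · unfold G X D
    rw [← Finset.sum_sub_distrib, Finset.mul_sum, Finset.mul_sum, ← Finset.sum_add_distrib]
    exact Finset.sum_le_sum fun x _ => (hpt x).1
  · unfold X
    exact Finset.sum_le_sum fun x _ => (hpt x).2

theorem MAI (acp : ACP_stmt) (inq : INQ_stmt) (ra : RA_stmt) (rb : RB_stmt) (yng : YNG_stmt) : MAI_stmt := by
  intro m Q hQ S hS
  have hKT : ∀ j, KT Q (S j) ≤ ∑ i ∈ range j, G Q S i := by
    intro j
    induction j with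
    | zero =>
      rw [Finset.range_zero, Finset.sum_empty]
      apply le_of_eq
      unfold KT
      apply Finset.sum_eq_zero
      intro x _
      have h1 := (acp m Q hQ ∅ · x)
      rw [hS.1 x, card_empty, pow_zero]
      have hw : w Q ∅ x = 1 := by
        rw [← hQ.2]
        unfold w
        apply Finset.sum_congr _ fun _ _ => rfl
        exact filter_true_of_mem fun y _ u hu => absurd hu (notMem_empty u)
      rw [hw, mul_one, Real.log_one, mul_zero]
    | succ j ih =>
      rw [Finset.sum_range_succ]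
      have := ra m Q hQ S hS j
      linarith
  have hX0 : X Q (S 0) = 0 := by
    unfold X
    apply Finset.sum_eq_zero
    intro x _
    rw [hS.1 x, Finset.sum_empty, mul_zero]
  have hH : ∀ j, ∑ i ∈ range j, G Q S i ≤ 17 ^ j * X Q (S j) := by
    intro j
    induction j with
    | zero => rw [Finset.range_zero, Finset.sum_empty, hX0, mul_zero]
    | succ j ih =>
      rw [Finset.sum_range_succ]
      obtain ⟨g1, g2⟩ := MAI_G acp inq Q hQ S hS j
      have d1 := rb m Q hQ S hS j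
      have d2 := (yng m Q hQ (S j) (MAI_adp S hS j)).1
      have p1 : (1 : ℝ) ≤ 17 ^ j := one_le_pow₀ (by norm_num)
      have p2 : (16 : ℝ) ≤ 17 ^ (j + 1) := by
        rw [pow_succ]
        linarith
      have h1 : 16 * (X Q (S (j + 1)) - X Q (S j)) ≤ 17 ^ (j + 1) * (X Q (S (j + 1)) - X Q (S j)) :=
        mul_le_mul_of_nonneg_right p2 (by linarith)
      have h2 : (17 : ℝ) ^ (j + 1) = 17 ^ j * 17 := pow_succ 17 j
      have h3 : 17 ^ (j + 1) * X Q (S j) = 17 * (17 ^ j * X Q (S j)) := by rw [h2]; ring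
      have h4 : 17 ^ (j + 1) * (X Q (S (j + 1)) - X Q (S j)) = 17 ^ (j + 1) * X Q (S (j + 1)) - 17 ^ (j + 1) * X Q (S j) := by ring
      linarith
  intro j
  exact (hKT j).trans (hH j)

end EN
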